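import Pool.Agent.N819.UD.Stm2

/-! Project UE (helper819), part PER: successors give predecessors. -/

set_option autoImplicit false

namespace Pool.Agent.N806.UE_PER

theorem main : Pool.Agent.N819.UD.S_PER := by
  intro E _ _ R A hA hs
  classical
  have hs' : ∀ e : E, ∃ f : E, e ∈ A → f ∈ A ∧ R e f := by
    intro e
    by_cases he : e ∈ A
    · obtain ⟨f, hf, hR⟩ := hs e he
      exact ⟨f, fun _ => ⟨hf, hR⟩⟩
    · exact ⟨e, fun h => absurd h he⟩
  choose s hsA using hs'
  have hit : ∀ (n : ℕ) (e : E), e ∈ A → s^[n] e ∈ A := by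
    intro n
    induction n with
    | zero => intro e he; exact he
    | succ n ih =>
      intro e he
      rw [Function.iterate_succ_apply']
      exact (hsA _ (ih e he)).1
  refine ⟨{e | e ∈ A ∧ ∃ n : ℕ, 0 < n ∧ s^[n] e = e}, ?_, fun e he => he.1, ?_⟩
  · obtain ⟨e0, he0⟩ := hA
    obtain ⟨i, j, hij, h⟩ := Finite.exists_ne_map_eq_of_infinite fun n : ℕ => s^[n] e0
    have key : ∀ i j : ℕ, i < j → s^[i] e0 = s^[j] e0 →
        s^[i] e0 ∈ {e | e ∈ A ∧ ∃ n : ℕ, 0 < n ∧ s^[n] e = e} := by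
      intro i j hlt h
      refine ⟨hit i e0 he0, j - i, Nat.sub_pos_of_lt hlt, ?_⟩
      rw [← Function.iterate_add_apply, Nat.sub_add_cancel hlt.le]
      exact h.symm
    rcases Nat.lt_or_gt_of_ne hij with h1 | h1
    · exact ⟨_, key i j h1 h⟩
    · exact ⟨_, key j i h1 h.symm⟩
  · rintro e ⟨heA, n, hn, hne⟩
    obtain ⟨m, rfl⟩ : ∃ m, n = m + 1 := ⟨n - 1, by omega⟩
    refine ⟨s^[m] e, ⟨hit m e heA, m + 1, hn, ?_⟩, ?_⟩
    · rw [← Function.iterate_add_apply, Nat.add_comm, Function.iterate_add_apply, hne]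
    · have h := (hsA _ (hit m e heA)).2
      rw [← Function.iterate_succ_apply' s m e] at h
      rw [Nat.succ_eq_add_one, hne] at h
      exact h

end Pool.Agent.N806.UE_PER
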