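import Pool.Agent.N894.WF.Defs

/-! Project WF (helper894), leaf C2: the Magnus extension modulo `m`. -/

set_option autoImplicit false

namespace Pool.Agent.N806.WF

open N894.WF

/-- the semidirect product of `H → S → ZMod m` by `H` -/
@[ext]
structure Mag (H S : Type) (m : ℕ) where
  left : H → S → ZMod m
  right : H

namespace Mag

variable {H S : Type} [Group H] {m : ℕ}

instance : Mul (Mag H S m) := ⟨fun a b => ⟨fun y s => a.left y s + b.left (a.right⁻¹ * y) s,
  a.right * b.right⟩⟩
instance : One (Mag H S m) := ⟨⟨fun _ _ => 0, 1⟩⟩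
instance : Inv (Mag H S m) := ⟨fun a => ⟨fun y s => -a.left (a.right * y) s, a.right⁻¹⟩⟩

theorem mul_left (a b : Mag H S m) (y : H) (s : S) :
    (a * b).left y s = a.left y s + b.left (a.right⁻¹ * y) s := rfl
theorem mul_right (a b : Mag H S m) : (a * b).right = a.right * b.right := rfl
theorem one_left (y : H) (s : S) : (1 : Mag H S m).left y s = 0 := rfl
theorem one_right : (1 : Mag H S m).right = 1 := rfl
theorem inv_left (a : Mag H S m) (y : H) (s : S) : (a⁻¹).left y s = -a.left (a.right * y) s := rfl
theorem inv_right (a : Mag H S m) : (a⁻¹).right = a.right⁻¹ := rfl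

instance : Group (Mag H S m) :=
  Group.ofLeftAxioms
    (by
      intro a b c
      refine Mag.ext ?_ ?_
      · funext y s
        simp only [mul_left, mul_right, mul_inv_rev, mul_assoc, add_assoc]
      · simp only [mul_right, mul_assoc])
    (by
      intro a
      refine Mag.ext ?_ ?_
      · funext y s
        simp only [mul_left, one_left, one_right, inv_one, one_mul, zero_add]
      · simp only [mul_right, one_right, one_mul])
    (by
      intro a
      refine Mag.ext ?_ ?_
      · funext y s
        simp only [mul_left, one_left, inv_left, inv_right, inv_inv, neg_add_cancel]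
      · simp only [mul_right, one_right, inv_right, inv_mul_cancel])

/-- the projection -/
def toH : Mag H S m →* H where
  toFun a := a.right
  map_one' := rfl
  map_mul' _ _ := rfl

end Mag

open Mag

variable {H S : Type} [Group H] [Fintype H] {m : ℕ}

open Classical in
/-- the sum of the `s`-components over the coset `C y` -/
noncomputable def sg (C : Subgroup H) (y : H) (s : S) (f : H → S → ZMod m) : ZMod m :=
  ∑ z : H, if z * y⁻¹ ∈ C then f z s else 0

theorem sg_add (C : Subgroup H) (y : H) (s : S) (f g : H → S → ZMod m) :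
    sg C y s (fun z t => f z t + g z t) = sg C y s f + sg C y s g := by
  classical
  unfold sg
  rw [← Finset.sum_add_distrib]
  refine Finset.sum_congr rfl fun z _ => ?_
  split_ifs
  · rfl
  · rw [add_zero]

theorem sg_neg (C : Subgroup H) (y : H) (s : S) (f : H → S → ZMod m) :
    sg C y s (fun z t => -f z t) = -sg C y s f := by
  classical
  unfold sg
  rw [← Finset.sum_neg_distrib]
  refine Finset.sum_congr rfl fun z _ => ?_
  split_ifs
  · rfl
  · rw [neg_zero]

theorem sg_trans (C : Subgroup H) (y : H) (s : S) (f : H → S → ZMod m) (h : H) (hh : h ∈ C) :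
    sg C y s (fun z t => f (h * z) t) = sg C y s f := by
  classical
  unfold sg
  rw [← Equiv.sum_comp (Equiv.mulLeft h) fun z => if z * y⁻¹ ∈ C then f z s else 0]
  refine Finset.sum_congr rfl fun z _ => ?_
  rw [Equiv.coe_mulLeft]
  have h1 : h * z * y⁻¹ ∈ C ↔ z * y⁻¹ ∈ C := by
    rw [mul_assoc]
    exact C.mul_mem_cancel_left hh
  simp only [h1]

open Classical in
/-- the function `δ_h ⊗ e_t` -/
noncomputable def dl (h : H) (t : S) : H → S → ZMod m := fun y s => if y = h ∧ s = t then 1 else 0

theorem sg_dl (C : Subgroup H) (y : H) (s : S) (h : H) (t : S) :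
    sg C y s (dl (m := m) h t) = ((ind C y s h t : ℤ) : ZMod m) := by
  classical
  unfold sg dl ind
  rw [Finset.sum_eq_single h]
  · by_cases h1 : h * y⁻¹ ∈ C
    · by_cases h2 : s = t
      · subst h2
        simp [h1]
      · have h3 : ¬ t = s := fun h4 => h2 h4.symm
        simp [h1, h2, h3]
    · simp [h1]
  · intro z _ hz
    simp [hz]
  · intro h1
    exact absurd (Finset.mem_univ _) h1

theorem main : LeafC2 := by
  intro H S _ _ _ φ m hm
  classical
  have : NeZero m := ⟨hm.ne'⟩
  let _ : Fintype H := Fintype.ofFinite H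
  have hfin : Finite (Mag H S m) := by
    refine Finite.of_injective (β := (H → S → ZMod m) × H) (fun a => (a.left, a.right)) ?_
    intro a b h
    rw [Prod.mk.injEq] at h
    exact Mag.ext h.1 h.2
  let ψ : S → Mag H S m := fun s => ⟨dl 1 s, φ s⟩
  refine ⟨Mag H S m, inferInstance, hfin, Mag.toH, ψ, fun s => rfl, ?_⟩
  intro ι _ x a b p g hg
  set C : Subgroup H := Subgroup.closure (Set.range fun i =>
    Mag.toH (x i) * (φ (a i) * φ (b i) * (φ (p i))⁻¹) * (Mag.toH (x i))⁻¹) with hC
  set t : ι → Mag H S m := fun i => x i * (ψ (a i) * ψ (b i) * (ψ (p i))⁻¹) * (x i)⁻¹ with ht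
  have hcC : ∀ i, (x i).right * (φ (a i) * φ (b i) * (φ (p i))⁻¹) * ((x i).right)⁻¹ ∈ C :=
    fun i => Subgroup.subset_closure ⟨i, rfl⟩
  -- the homomorphism property
  have hmul : ∀ (w w' : Mag H S m), w.right ∈ C → ∀ (y : H) (s : S),
      sg C y s (w * w').left = sg C y s w.left + sg C y s w'.left := by
    intro w w' hw y s
    have h1 : (w * w').left = fun z t => w.left z t + w'.left (w.right⁻¹ * z) t := rfl
    rw [h1, sg_add, sg_trans C y s w'.left _ (C.inv_mem hw)]
  have hone : ∀ (y : H) (s : S), sg C y s (1 : Mag H S m).left = 0 := by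
    intro y s
    unfold sg
    refine Finset.sum_eq_zero fun z _ => ?_
    split_ifs
    · rfl
    · rfl
  -- the value at the `t i`
  have hval : ∀ (i : ι) (y : H) (s : S), sg C y s (t i).left =
      ((rel C φ y s (x i).right (a i) (b i) (p i) : ℤ) : ZMod m) := by
    intro i y s
    have e1 : (t i).left = fun z r => ((x i).left z r + -(x i).left
        (((x i).right * (φ (a i) * φ (b i) * (φ (p i))⁻¹) * ((x i).right)⁻¹)⁻¹ * z) r) +
        ((dl (x i).right (a i) z r + dl ((x i).right * φ (a i)) (b i) z r) +
          -dl ((x i).right * φ (a i) * φ (b i) * (φ (p i))⁻¹) (p i) z r) := by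
      funext z r
      rw [ht]
      simp only [Mag.mul_left, Mag.mul_right, Mag.inv_left, Mag.inv_right, ψ]
      have k1 : (dl 1 (a i) ((x i).right⁻¹ * z) r : ZMod m) = dl (x i).right (a i) z r := by
        unfold dl
        have : (x i).right⁻¹ * z = 1 ↔ z = (x i).right := by
          rw [inv_mul_eq_one, eq_comm]
        simp only [this]
      have k2 : (dl 1 (b i) ((φ (a i))⁻¹ * ((x i).right⁻¹ * z)) r : ZMod m) =
          dl ((x i).right * φ (a i)) (b i) z r := by
        unfold dl
        have : (φ (a i))⁻¹ * ((x i).right⁻¹ * z) = 1 ↔ z = (x i).right * φ (a i) := by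
          rw [← mul_assoc, ← mul_inv_rev, inv_mul_eq_one, eq_comm]
        simp only [this]
      have k3 : (dl 1 (p i) (φ (p i) * ((φ (a i) * φ (b i))⁻¹ * ((x i).right⁻¹ * z))) r : ZMod m) =
          dl ((x i).right * φ (a i) * φ (b i) * (φ (p i))⁻¹) (p i) z r := by
        unfold dl
        have : φ (p i) * ((φ (a i) * φ (b i))⁻¹ * ((x i).right⁻¹ * z)) = 1 ↔
            z = (x i).right * φ (a i) * φ (b i) * (φ (p i))⁻¹ := by
          constructor
          · intro h
            have h2 : (x i).right⁻¹ * z = (φ (a i) * φ (b i)) * (φ (p i))⁻¹ := by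
              have h3 := eq_inv_of_mul_eq_one_right h
              rw [inv_mul_eq_iff_eq_mul] at h3
              exact h3
            rw [inv_mul_eq_iff_eq_mul] at h2
            rw [h2]
            group
          · rintro rfl
            group
        simp only [this]
      rw [k1, k2, k3]
      have k4 : (x i).right * (((x i).right * (φ (a i) * φ (b i) * (φ (p i))⁻¹))⁻¹ * z) =
          ((x i).right * (φ (a i) * φ (b i) * (φ (p i))⁻¹) * ((x i).right)⁻¹)⁻¹ * z := by
        group
      rw [k4]
      ring
    rw [e1, sg_add, sg_add, sg_add, sg_add, sg_neg, sg_neg, sg_trans C y s (x i).left _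
      (C.inv_mem (hcC i)), sg_dl, sg_dl, sg_dl]
    unfold rel
    push_cast
    ring
  -- induction over the closure
  have key : ∀ w ∈ Subgroup.closure (Set.range t), w.right ∈ C ∧ ∃ e : ι → ℤ, ∀ (y : H) (s : S),
      sg C y s w.left = ∑ i, (e i : ZMod m) * sg C y s (t i).left := by
    intro w hw
    induction hw using Subgroup.closure_induction with
    | mem w hw =>
      obtain ⟨i, rfl⟩ := hw
      refine ⟨hcC i, Pi.single i 1, fun y s => ?_⟩
      rw [Finset.sum_eq_single i]
      · rw [Pi.single_eq_same, Int.cast_one, one_mul]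
      · intro j _ hj
        rw [Pi.single_eq_of_ne hj, Int.cast_zero, zero_mul]
      · intro h
        exact absurd (Finset.mem_univ _) h
    | one =>
      refine ⟨C.one_mem, 0, fun y s => ?_⟩
      rw [hone]
      simp
    | mul w w' _ _ h h' =>
      obtain ⟨h1, e, he⟩ := h
      obtain ⟨h1', e', he'⟩ := h'
      refine ⟨C.mul_mem h1 h1', e + e', fun y s => ?_⟩
      rw [hmul w w' h1, he, he', ← Finset.sum_add_distrib]
      refine Finset.sum_congr rfl fun i _ => ?_
      rw [Pi.add_apply, Int.cast_add, add_mul]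
    | inv w _ h =>
      obtain ⟨h1, e, he⟩ := h
      refine ⟨C.inv_mem h1, -e, fun y s => ?_⟩
      have h2 := hmul w w⁻¹ h1 y s
      rw [mul_inv_cancel, hone] at h2
      have h3 : sg C y s w⁻¹.left = -sg C y s w.left := (neg_eq_of_add_eq_zero_right h2.symm).symm
      rw [h3, he, ← Finset.sum_neg_distrib]
      refine Finset.sum_congr rfl fun i _ => ?_
      rw [Pi.neg_apply, Int.cast_neg, neg_mul]
  obtain ⟨-, e, he⟩ := key _ hg
  refine ⟨e, fun y s => ?_⟩
  rw [← CharP.intCast_eq_zero_iff (ZMod m) m, Int.cast_sub, Int.cast_sum, sub_eq_zero]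
  have h1 := he y s
  have h2 : sg C y s (ψ g).left = ((ind C y s 1 g : ℤ) : ZMod m) := sg_dl C y s 1 g
  rw [h2] at h1
  rw [h1]
  refine Finset.sum_congr rfl fun i _ => ?_
  rw [hval i y s, Int.cast_mul]
  rfl

theorem t_C2 : N894.WF.LeafC2 := main

end Pool.Agent.N806.WF
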