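import Pool.Agent.N894.WF.DefsG

/-! Project WF (helper894), leaf G0: graph products, words of length one. -/

set_option autoImplicit false

namespace Pool.Agent.N806.WF

open N894.WF

theorem t_G0 : N894.WF.LeafG0 := by
  intro V X Γ _ hR F K
  classical
  let V0 : Finset V := F.image Sigma.fst
  let Fv : (v : V) → Finset (Γ v) := fun v =>
    F.preimage (Sigma.mk v) (sigma_mk_injective.injOn)
  have hFv : ∀ (v : V) (a : Γ v), a ∈ Fv v ↔ (⟨v, a⟩ : Σ v, Γ v) ∈ F := fun v a =>
    Finset.mem_preimage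
  choose Q gQ fQ φQ hQ using fun v => hR v (Fv v) K
  let φ : (v : V) → Γ v → ((w : V0) → Q w.1) := fun v a =>
    if h : v ∈ V0 then Pi.mulSingle (M := fun w : V0 => Q w.1) (⟨v, h⟩ : V0) (φQ v a) else 1
  have e1 : ∀ (v : V) (h : v ∈ V0) (a : Γ v), φ v a ⟨v, h⟩ = φQ v a := by
    intro v h a
    show (if h : v ∈ V0 then Pi.mulSingle (M := fun w : V0 => Q w.1) (⟨v, h⟩ : V0) (φQ v a)
      else 1) ⟨v, h⟩ = φQ v a
    rw [dif_pos h, Pi.mulSingle_eq_same]
  have e2 : ∀ (v : V) (h : v ∈ V0) (u : V) (a : Γ u), u ≠ v → φ u a ⟨v, h⟩ = 1 := by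
    intro v h u a huv
    show (if h : u ∈ V0 then Pi.mulSingle (M := fun w : V0 => Q w.1) (⟨u, h⟩ : V0) (φQ u a)
      else 1) ⟨v, h⟩ = 1
    split_ifs with hu
    · refine Pi.mulSingle_eq_of_ne ?_ _
      intro h1
      exact huv (congrArg Subtype.val h1).symm
    · rfl
  refine ⟨(w : V0) → Q w.1, inferInstance, inferInstance, φ, ?_, ?_⟩
  · intro u v huv a b
    have hne : u ≠ v := huv.ne
    show φ u a * φ v b = φ v b * φ u a
    funext w
    obtain ⟨w, hw⟩ := w
    show φ u a ⟨w, hw⟩ * φ v b ⟨w, hw⟩ = φ v b ⟨w, hw⟩ * φ u a ⟨w, hw⟩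
    by_cases h1 : u = w
    · have h2 : v ≠ w := fun h3 => hne (h1.trans h3.symm)
      rw [e2 w hw v b h2, mul_one, one_mul]
    · rw [e2 w hw u a h1, mul_one, one_mul]
  · intro l hl hlF _ S hxS T hTK hT c hc s hs hev
    obtain ⟨x, hxl, hxv⟩ := hxS
    have hlx : l = [x] := by
      rcases l with _ | ⟨y, l⟩
      · exact absurd hxl (List.not_mem_nil)
      · rcases l with _ | ⟨z, l⟩
        · rw [List.mem_singleton] at hxl
          rw [hxl]
        · simp only [List.length_cons] at hl
          omega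
    obtain ⟨hxF, hx1⟩ := hlF x hxl
    obtain ⟨v, a⟩ := x
    have hv : v ∈ V0 := Finset.mem_image.2 ⟨_, hxF, rfl⟩
    let e : ((w : V0) → Q w.1) →* Q v := Pi.evalMonoidHom (fun w : V0 => Q w.1) ⟨v, hv⟩
    have he1 : ∀ b : Γ v, e (φ v b) = φQ v b := fun b => e1 v hv b
    have he2 : ∀ (u : V) (b : Γ u), u ≠ v → e (φ u b) = 1 := fun u b h => e2 v hv u b h
    have hes : e s = 1 := by
      have h1 : Lbar φ S ≤ e.ker := by
        unfold Lbar
        rw [Subgroup.closure_le]
        rintro z ⟨u, hu, b, rfl⟩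
        exact he2 u b fun h2 => hxv (h2 ▸ hu)
      exact h1 hs
    have hea : φQ v a = e c := by
      have h1 : ev φ l = φ v a := by
        rw [hlx]
        simp [ev]
      rw [h1] at hev
      have h2 := congrArg e hev
      rw [he1, map_mul, hes, mul_one] at h2
      exact h2
    let T' : Finset (Q v) := (T.image e).erase 1
    have hT'K : T'.card ≤ K :=
      (Finset.card_le_card (Finset.erase_subset _ _)).trans (Finset.card_image_le.trans hTK)
    have hT' : IsErrSet (φQ v) (Fv v) T' := by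
      intro t' ht'
      obtain ⟨hne, ht⟩ := Finset.mem_erase.1 ht'
      obtain ⟨t, htT, rfl⟩ := Finset.mem_image.1 ht
      obtain ⟨x, u, b, b', hb, hb', rfl⟩ := hT t htT
      by_cases huv : u = v
      · subst huv
        refine ⟨e x, b, (hFv _ _).2 hb, b', (hFv _ _).2 hb', ?_⟩
        simp only [map_mul, map_inv, he1]
      · exfalso
        apply hne
        simp only [map_mul, map_inv, he2 u _ huv, mul_one, inv_one, mul_inv_cancel]
    have hec : e c ∈ Subgroup.closure (T' : Set (Q v)) := by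
      have h1 : Subgroup.closure (T : Set ((w : V0) → Q w.1)) ≤
          (Subgroup.closure (T' : Set (Q v))).comap e := by
        rw [Subgroup.closure_le]
        intro t ht
        show e t ∈ Subgroup.closure (T' : Set (Q v))
        by_cases h2 : e t = 1
        · rw [h2]
          exact Subgroup.one_mem _
        · exact Subgroup.subset_closure
            (Finset.mem_coe.2 (Finset.mem_erase.2 ⟨h2, Finset.mem_image_of_mem _ ht⟩))
      exact h1 hc
    have h3 := hQ v T' hT'K hT' a ((hFv v a).2 hxF) hx1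
    rw [hea] at h3
    exact h3 hec

end Pool.Agent.N806.WF
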